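import Mathlib

open Set Filter Topology Complex Matrix
open scoped Matrix.Norms.L2Operator

namespace Pool.Agent.H.MP_a09116_an

lemma quad {R : Type*} [NormedRing R] [CompleteSpace R] {p q : R} (hp : ‖p‖ ≤ 1 / 4) (hq : ‖q‖ ≤ 1 / 4) :
    ∃! X : R, ‖X‖ < 1 ∧ p * X ^ 2 + X + q = 0 := by
  have k : ∀ X Y : R, ‖X‖ ≤ 1 → ‖Y‖ ≤ 1 → ‖(-q - p * X ^ 2) - (-q - p * Y ^ 2)‖ ≤ 1 / 2 * ‖X - Y‖ := by
    intro X Y hX hY
    have e : (-q - p * X ^ 2) - (-q - p * Y ^ 2) = -(p * (X * (X - Y) + (X - Y) * Y)) := by noncomm_ring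
    have n := norm_nonneg (X - Y)
    rw [e, norm_neg]
    refine (norm_mul_le _ _).trans (mul_le_mul hp ((norm_add_le _ _).trans (add_le_add
      ((norm_mul_le _ _).trans (mul_le_of_le_one_left n hX))
      ((norm_mul_le _ _).trans (mul_le_of_le_one_right n hY)))) (norm_nonneg _) (by norm_num)
      |>.trans_eq (by ring))
  have m : MapsTo (fun X : R => -q - p * X ^ 2) (Metric.closedBall 0 (1 / 2)) (Metric.closedBall 0 (1 / 2)) := by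
    intro X hX
    rw [mem_closedBall_zero_iff] at hX ⊢
    have := k X 0 (by linarith) (by simp)
    simp only [sub_zero, ne_eq, OfNat.ofNat_ne_zero, not_false_eq_true, zero_pow, mul_zero] at this
    have h := norm_add_le (-q - p * X ^ 2 - -q) (-q)
    rw [sub_add_cancel, norm_neg] at h
    linarith
  obtain ⟨X, hX, f, -⟩ := ContractingWith.exists_fixedPoint' (K := 1 / 2) Metric.isClosed_closedBall.isComplete m
    ⟨by norm_num, LipschitzWith.of_dist_le_mul fun x y => by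
      have a := mem_closedBall_zero_iff.1 x.2
      have b := mem_closedBall_zero_iff.1 y.2
      simpa [Subtype.dist_eq, dist_eq_norm] using k x y (by linarith) (by linarith)⟩
    (Metric.mem_closedBall_self (by norm_num)) (edist_ne_top _ _)
  rw [mem_closedBall_zero_iff] at hX
  have f' : -q - p * X ^ 2 = X := f
  refine ⟨X, ⟨by linarith, by rw [← neg_eq_zero, ← sub_eq_zero.2 f']; abel⟩, fun Y ⟨a, b⟩ => ?_⟩
  have := k Y X a.le (by linarith)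
  rw [f', show -q - p * Y ^ 2 = Y by rw [← sub_eq_zero, ← neg_eq_zero, ← b]; abel] at this
  exact sub_eq_zero.1 (norm_le_zero_iff.1 (by linarith))

abbrev M := Matrix (Fin 11) (Fin 11) ℂ

def 𝒜 (c : Fin 9 → ℂ) : M :=
  !![-c 0, 0, 0, c 1 + I * c 2, 0, 0, 0, 0, 0, 0, 0;
     0, -c 0, 0, 0, c 1 + I * c 2, 0, 0, 0, 0, 0, 0;
     0, 0, -c 0, 0, 0, c 1 + I * c 2, 0, 0, 0, 0, 0;
     c 1 - I * c 2, 0, 0, c 3, 0, 0, c 0, 0, 0, 0, 0;
     0, c 1 - I * c 2, 0, 0, c 3, 0, 0, c 0, 0, 0, 0;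
     0, 0, c 1 - I * c 2, 0, 0, c 3, 0, 0, c 0, 0, 0;
     0, 0, 0, c 0, 0, 0, c 4, c 5 + I * c 6, c 7 + I * c 8, 0, 0;
     0, 0, 0, 0, c 0, 0, c 5 - I * c 6, 0, 0, 0, 0;
     0, 0, 0, 0, 0, c 0, c 7 - I * c 8, 0, 0, 0, 0;
     0, 0, 0, 0, 0, 0, 0, 0, 0, c 0, -(c 1 + I * c 2);
     0, 0, 0, 0, 0, 0, 0, 0, 0, -(c 1 - I * c 2), c 0 - c 3]

def L : (Fin 9 → ℂ) →ₗ[ℂ] M where
  toFun := 𝒜
  map_add' x y := by simp [𝒜]; ring_nf; simp
  map_smul' x y := by simp [𝒜]; ring_nf; simp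

def A (j : Fin 9) : M := 𝒜 (Pi.single j 1)

lemma sum (c : Fin 9 → ℂ) : ∑ j, c j • A j = 𝒜 c := by
  exact ((map_sum L (fun j => c j • Pi.single j 1) _).symm.trans
    (congrArg L (pi_eq_sum_univ' c).symm) ▸ Finset.sum_congr rfl fun j _ => (L.map_smul _ _).symm :)

lemma st (c : Fin 9 → ℂ) : (𝒜 c)ᴴ = 𝒜 (star c) := by
  simp [← Matrix.ext_iff, Fin.forall_fin_succ, 𝒜, sub_eq_add_neg]

def a (e : ℝ) (k : Fin 5 → ℝ) : Fin 9 → ℂ := ![0, -e, -I * e, 4 * e ^ 2, k 0, k 1, k 2, k 3, k 4]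

def X (e : ℝ) (k : Fin 5 → ℝ) : M :=
  !![0, 0, 0, -2 * e, 0, 0, -2 * e * k 0, -2 * e * (k 1 + I * k 2), -2 * e * (k 3 + I * k 4), 0, 0;
     0, 0, 0, 0, -2 * e, 0, -2 * e * (k 1 - I * k 2), 0, 0, 0, 0;
     0, 0, 0, 0, 0, -2 * e, -2 * e * (k 3 - I * k 4), 0, 0, 0, 0;
     0, 0, 0, 0, 0, 0, -k 0, -(k 1 + I * k 2), -(k 3 + I * k 4), 0, 0;
     0, 0, 0, 0, 0, 0, -(k 1 - I * k 2), 0, 0, 0, 0;
     0, 0, 0, 0, 0, 0, -(k 3 - I * k 4), 0, 0, 0, 0;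
     0, 0, 0, 0, 0, 0, 0, 0, 0, 0, 0;
     0, 0, 0, 0, 0, 0, 0, 0, 0, 0, 0;
     0, 0, 0, 0, 0, 0, 0, 0, 0, 0, 0;
     0, 0, 0, 0, 0, 0, 0, 0, 0, 0, -2 * e;
     0, 0, 0, 0, 0, 0, 0, 0, 0, 0, 0]

def X2 (e : ℝ) (k : Fin 5 → ℝ) : M :=
  !![0, 0, 0, 0, 0, 0, 2 * e * k 0, 2 * e * (k 1 + I * k 2), 2 * e * (k 3 + I * k 4), 0, 0;
     0, 0, 0, 0, 0, 0, 2 * e * (k 1 - I * k 2), 0, 0, 0, 0;
     0, 0, 0, 0, 0, 0, 2 * e * (k 3 - I * k 4), 0, 0, 0, 0;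
     0, 0, 0, 0, 0, 0, 0, 0, 0, 0, 0;
     0, 0, 0, 0, 0, 0, 0, 0, 0, 0, 0;
     0, 0, 0, 0, 0, 0, 0, 0, 0, 0, 0;
     0, 0, 0, 0, 0, 0, 0, 0, 0, 0, 0;
     0, 0, 0, 0, 0, 0, 0, 0, 0, 0, 0;
     0, 0, 0, 0, 0, 0, 0, 0, 0, 0, 0;
     0, 0, 0, 0, 0, 0, 0, 0, 0, 0, 0;
     0, 0, 0, 0, 0, 0, 0, 0, 0, 0, 0]

lemma sq (e k) : X e k ^ 2 = X2 e k := by
  rw [pow_two]
  simp [X, X2]
  ring_nf; simp [funext_iff, Fin.forall_fin_succ]

def b : Fin 9 → ℝ := Pi.single 0 1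

lemma eqn (e k) : 𝒜 (a e k) * X e k ^ 2 + 𝒜 (fun j => b j - a e k j - star (a e k j)) * X e k +
    (𝒜 (a e k))ᴴ = 0 := by
  rw [sq, st]
  simp [X, X2, 𝒜, a, b]
  ring_nf; simp [← Matrix.ext_iff, Fin.forall_fin_succ]

lemma kill (e k) (j : Fin 9) (h : 4 ≤ j) : A j * X e k = 0 := by
  have : (Pi.single j 1 : Fin 9 → ℂ) 0 = 0 ∧ (Pi.single j 1 : Fin 9 → ℂ) 1 = 0 ∧
    (Pi.single j 1 : Fin 9 → ℂ) 2 = 0 ∧ (Pi.single j 1 : Fin 9 → ℂ) 3 = 0 := by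
    fin_cases j <;> simp at h ⊢
  simp [X, A, 𝒜, this]
  simp [← Matrix.ext_iff, Fin.forall_fin_succ]

noncomputable def Ai (e : ℝ) : M :=
  !![-1, 0, 0, 0, 0, 0, 2 * e, 0, 0, 0, 0;
     0, -1, 0, 0, 0, 0, 0, 2 * e, 0, 0, 0;
     0, 0, -1, 0, 0, 0, 0, 0, 2 * e, 0, 0;
     0, 0, 0, 0, 0, 0, 1, 0, 0, 0, 0;
     0, 0, 0, 0, 0, 0, 0, 1, 0, 0, 0;
     0, 0, 0, 0, 0, 0, 0, 0, 1, 0, 0;
     2 * e, 0, 0, 1, 0, 0, 4 * e ^ 2, 0, 0, 0, 0;
     0, 2 * e, 0, 0, 1, 0, 0, 4 * e ^ 2, 0, 0, 0;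
     0, 0, 2 * e, 0, 0, 1, 0, 0, 4 * e ^ 2, 0, 0;
     0, 0, 0, 0, 0, 0, 0, 0, 0, (1 + 8 * e ^ 2) / (1 + 4 * e ^ 2), 2 * e / (1 + 4 * e ^ 2);
     0, 0, 0, 0, 0, 0, 0, 0, 0, 2 * e / (1 + 4 * e ^ 2), 1 / (1 + 4 * e ^ 2)]

lemma inv (e : ℝ) : (𝒜 (fun j => b j - a e 0 j - star (a e 0 j)))⁻¹ = Ai e := by
  have : (1 + 4 * e ^ 2 : ℂ) ≠ 0 := by exact_mod_cast (by positivity : (1 + 4 * e ^ 2 : ℝ) ≠ 0)
  refine Matrix.inv_eq_right_inv ?_
  have h := mul_inv_cancel₀ this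
  simp only [Ai, div_eq_mul_inv]
  generalize (1 + 4 * e ^ 2 : ℂ)⁻¹ = u at h
  simp [𝒜, a, b]
  simp [← Matrix.ext_iff, Fin.forall_fin_succ]
  repeat' constructor
  all_goals first | ring1 | linear_combination h

def V (e : ℝ) : Fin 11 → ℂ := ![0, 0, 0, 0, 0, 0, e ^ 2, 0, 0, 0, 1]

noncomputable def β (e : ℝ) (c c' : Fin 9 → ℂ) : ℂ :=
  star (𝒜 c *ᵥ V e) ⬝ᵥ Ai e *ᵥ 𝒜 c' *ᵥ V e +
    star (𝒜 c *ᵥ X e 0 *ᵥ V e) ⬝ᵥ Ai e *ᵥ 𝒜 c' *ᵥ X e 0 *ᵥ V e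

lemma herm (j : Fin 9) : (A j).IsHermitian := by
  rw [IsHermitian, A, st]; congr; ext i; simp [Pi.single_apply]

lemma ts (e : ℝ) (j s : Fin 9) :
    ∑' r, star (V e) ⬝ᵥ ((X e 0)ᴴ ^ r * A j * Ai e * A s * X e 0 ^ r) *ᵥ V e =
      β e (Pi.single j 1) (Pi.single s 1) := by
  have z : X e 0 ^ 2 = 0 := by rw [sq]; simp [X2, ← Matrix.ext_iff, Fin.forall_fin_succ]
  rw [tsum_eq_sum (s := Finset.range 2) fun r hr => by
    rw [pow_eq_zero_of_le (not_lt.1 (Finset.mem_range.not.1 hr)) z]; simp]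
  have := (herm j).eq
  simp only [A] at this
  simp [Finset.sum_range_succ, β, star_mulVec, this, A, dotProduct_mulVec, Matrix.mul_assoc]

lemma βe (e : ℝ) (x y : Fin 9 → ℝ) : (β e (fun i => x i) (fun i => y i)).re =
    e ^ 4 * (x 0 * y 4 + x 4 * y 0) +
      4 * e ^ 6 * (x 4 * y 4 + x 5 * y 5 + x 6 * y 6 + x 7 * y 7 + x 8 * y 8) +
      x 1 * y 1 + x 2 * y 2 + 4 * e ^ 2 * (x 0 * y 0) +
      ((x 0 - x 3 - 2 * e * x 1) * (y 0 - y 3 - 2 * e * y 1) + 8 * e ^ 2 * (x 2 * y 2) +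
        4 * e ^ 2 * ((2 * e * x 0 - x 1) * (2 * e * y 0 - y 1))) / (1 + 4 * e ^ 2) := by
  have := mul_inv_cancel₀ (by positivity : (1 + 4 * e ^ 2 : ℝ) ≠ 0)
  have h : (1 + 4 * e ^ 2 : ℂ) = ((1 + 4 * e ^ 2 : ℝ) : ℂ) := by push_cast; rfl
  simp only [β, Ai, h, div_eq_mul_inv, ← ofReal_inv]
  generalize (1 + 4 * e ^ 2)⁻¹ = u at *
  simp [𝒜, X, V, ← ofReal_pow, dotProduct, Fin.sum_univ_succ]
  linear_combination (x 1 * y 1 + x 2 * y 2 + 4 * e ^ 2 * (x 0 * y 0)) * this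

lemma pos {e : ℝ} (he : 0 < e) : (Matrix.of fun j s =>
    (β e (Pi.single j 1) (Pi.single s 1)).re).PosDef := by
  have k : ∀ j : Fin 9, (Pi.single j 1 : Fin 9 → ℂ) = fun i => ((Pi.single j 1 : Fin 9 → ℝ) i : ℂ) :=
    fun j => by ext i; simp [Pi.single_apply, apply_ite]
  simp only [k, βe]
  refine posDef_iff_dotProduct_mulVec.2 ⟨?_, fun x hx => ?_⟩
  · ext i j
    simp only [conjTranspose_apply, of_apply, star_trivial]; ring
  have : 0 < (β e (fun i => x i) (fun i => x i)).re := by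
    rw [βe]
    by_contra h
    have t0 := mul_self_nonneg (x 0 - x 3 - 2 * e * x 1)
    have d : 0 < 1 + 4 * e ^ 2 := by positivity
    have t := fun i => mul_nonneg (pow_pos he 6).le (mul_self_nonneg (x i))
    have u := fun i => mul_self_nonneg (x i)
    have v := mul_nonneg (pow_pos he 2).le (u 0)
    have w := mul_nonneg (pow_pos he 2).le (mul_self_nonneg (x 0 + e ^ 2 * x 4))
    have p := mul_nonneg (pow_pos he 2).le (u 2)
    have q := mul_nonneg (pow_pos he 2).le (mul_self_nonneg (2 * e * x 0 - x 1))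
    set R := (x 0 - x 3 - 2 * e * x 1) * (x 0 - x 3 - 2 * e * x 1) + 8 * e ^ 2 * (x 2 * x 2) +
        4 * e ^ 2 * ((2 * e * x 0 - x 1) * (2 * e * x 0 - x 1)) with hR
    have r : 0 ≤ R / (1 + 4 * e ^ 2) := div_nonneg (by linarith) d.le
    have z : ∀ i m, e ^ m * (x i * x i) ≤ 0 → x i = 0 := fun i m h =>
      mul_self_eq_zero.1 ((u i).antisymm' (nonpos_of_mul_nonpos_right h (pow_pos he m)))
    have a0 := z 0 2 (by linarith [t 4, t 5, t 6, t 7, t 8, u 1, u 2])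
    have a1 := z 1 0 (by linarith [t 4, t 5, t 6, t 7, t 8, u 1, u 2])
    have a2 := z 2 0 (by linarith [t 4, t 5, t 6, t 7, t 8, u 1, u 2])
    have a4 := z 4 6 (by linarith [t 4, t 5, t 6, t 7, t 8, u 1, u 2])
    have a5 := z 5 6 (by linarith [t 4, t 5, t 6, t 7, t 8, u 1, u 2])
    have a6 := z 6 6 (by linarith [t 4, t 5, t 6, t 7, t 8, u 1, u 2])
    have a7 := z 7 6 (by linarith [t 4, t 5, t 6, t 7, t 8, u 1, u 2])
    have a8 := z 8 6 (by linarith [t 4, t 5, t 6, t 7, t 8, u 1, u 2])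
    have a3 : x 3 = 0 := by
      simp [hR, a0, a1, a2, a4, a5, a6, a7, a8, div_nonpos_iff, d.not_ge] at h
      exact mul_self_eq_zero.1 ((u 3).antisymm' h.1)
    exact hx (funext fun i => by fin_cases i <;> assumption)
  rw [βe] at this
  refine this.trans_eq ?_
  simp [dotProduct, mulVec, Fin.sum_univ_succ]
  ring

lemma near : ∀ᶠ c in 𝓝 (0 : Fin 9 → ℂ), IsUnit (𝒜 fun j => b j - c j - star (c j)) ∧
    ∃! Y : M, ‖Y‖ < 1 ∧ 𝒜 c * Y ^ 2 + 𝒜 (fun j => b j - c j - star (c j)) * Y + (𝒜 c)ᴴ = 0 := by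
  have cL : Continuous 𝒜 := L.continuous_of_finiteDimensional
  have c : Continuous fun c : Fin 9 → ℂ => 𝒜 fun j => b j - c j - star (c j) := cL.comp (by fun_prop)
  have u : IsUnit (𝒜 fun j => b j - (0 : Fin 9 → ℂ) j - star ((0 : Fin 9 → ℂ) j)) :=
    IsUnit.of_mul_eq_one (𝒜 fun j => b j) (by
      simp [𝒜, b]; simp [← Matrix.ext_iff, Fin.forall_fin_succ])
  have i : ContinuousAt (fun c : Fin 9 → ℂ => Ring.inverse (𝒜 fun j => b j - c j - star (c j))) 0 :=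
    ContinuousAt.comp (f := fun c : Fin 9 → ℂ => 𝒜 fun j => b j - c j - star (c j))
      (NormedRing.inverse_continuousAt u.unit) c.continuousAt
  have z : 𝒜 0 = 0 := L.map_zero
  filter_upwards [c.continuousAt.eventually (Units.isOpen.mem_nhds u),
    (i.mul cL.continuousAt).norm.eventually_lt (g := fun _ => 1 / 4) continuousAt_const (by simp [z]),
    (i.mul cL.matrix_conjTranspose.continuousAt).norm.eventually_lt (g := fun _ => 1 / 4)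
      continuousAt_const (by simp [z])] with c h p q
  refine ⟨h, (existsUnique_congr fun Y => and_congr_right fun _ => ?_).1 (quad p.le q.le)⟩
  rw [← h.mul_right_inj]
  simp only [mul_add, ← mul_assoc, Pi.mul_apply, Ring.mul_inverse_cancel _ h, one_mul, mul_zero]

lemma ca : Continuous fun p : ℝ × (Fin 5 → ℝ) => a p.1 p.2 := by unfold a; fun_prop

lemma cX : Continuous fun p : ℝ × (Fin 5 → ℝ) => X p.1 p.2 := by
  refine continuous_matrix fun i j => ?_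
  unfold X
  fun_prop

noncomputable def ι : (Fin 5 → ℝ) →L[ℝ] (Fin 9 → ℂ) × (Fin 11 → ℂ) :=
  LinearMap.toContinuousLinearMap
    { toFun := fun k => (a 0 k, 0)
      map_add' := fun x y => by simp [a]
      map_smul' := fun x y => by simp [a] }

lemma sing {e : ℝ} {W : Fin 11 → ℂ}
    {J : (Fin 9 → ℂ) × (Fin 11 → ℂ) → (Fin 11 → ℂ) × (Fin 9 → ℝ) × (Fin 9 → ℝ)}
    (h1 : ∀ p, (J p).1 = p.2) (h3 : ∀ p j, (J p).2.2 j = (p.1 j).im) (q : Fin 9 → ℝ)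
    (h2 : ∀ᶠ k in 𝓝 0, ∀ j, 4 ≤ j → (J (a e k, W)).2.1 j = q j) {D}
    (hD : HasFDerivAt (𝕜 := ℝ) J D (a e 0, W)) : ¬ Function.Injective D := fun hi => by
  have s : ∀ k, (a e k, W) = (a e 0, W) + ι k := fun k => by simp [ι, a]
  have d : HasFDerivAt (fun k => J (a e k, W)) (D.comp ι) 0 := by
    rw [show (fun k => J (a e k, W)) = J ∘ fun k => (a e 0, W) + ι k from
      funext fun k => congrArg J (s k)]
    exact HasFDerivAt.comp (0 : Fin 5 → ℝ) (by rwa [map_zero, add_zero]) (ι.hasFDerivAt.const_add _)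
  have e1 := d.fst.unique ((hasFDerivAt_const W _).congr_of_eventuallyEq (.of_forall fun k => h1 _))
  have e3 := fun j => (hasFDerivAt_pi'.1 d.snd.snd j).unique
    ((hasFDerivAt_const (a e 0 j).im _).congr_of_eventuallyEq (.of_forall fun k => by
      simp only [h3]; fin_cases j <;> simp [a]))
  have e2 := fun j hj => (hasFDerivAt_pi'.1 d.snd.fst j).unique
    ((hasFDerivAt_const (q j) _).congr_of_eventuallyEq (h2.mono fun k h => h j hj))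
  obtain ⟨k, hk, k0⟩ := (Submodule.ne_bot_iff _).1 (LinearMap.ker_ne_bot_of_finrank_lt
    (f := (LinearMap.funLeft ℝ ℝ (Fin.castLE (show 4 ≤ 9 by norm_num))).comp
      ((ContinuousLinearMap.fst ℝ _ _).comp ((ContinuousLinearMap.snd ℝ _ _).comp (D.comp ι))).toLinearMap)
    (by rw [Module.finrank_fin_fun, Module.finrank_fin_fun]; norm_num))
  have : D (ι k) = D 0 := by
    rw [map_zero]
    refine Prod.ext (congrArg (· k) e1) (Prod.ext (funext fun j => ?_) (funext fun j => congrArg (· k) (e3 j)))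
    by_cases hj : 4 ≤ j
    · exact congrArg (· k) (e2 j hj)
    · exact congrFun hk ⟨j, not_le.1 hj⟩
  have := congrArg Prod.fst (hi this)
  exact k0 (funext fun i => by
    fin_cases i
    exacts [ofReal_eq_zero.1 (congrFun this 4), ofReal_eq_zero.1 (congrFun this 5),
      ofReal_eq_zero.1 (congrFun this 6), ofReal_eq_zero.1 (congrFun this 7),
      ofReal_eq_zero.1 (congrFun this 8)])

end Pool.Agent.H.MP_a09116_an
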